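import Pool.Agent.BCS.Stmts

/-!
# BCS, row LIM (helper30)
-/

noncomputable section

open scoped ContDiff Topology
open Set MeasureTheory

namespace Pool.Agent.BCS.H30

open Pool.Agent.BCS

variable {m : ℕ}

theorem period {χ : ℂ → (Fin m → ℝ) → ℝ} (hχ : SmP χ) (z : ℂ) (n : Fin m → ℤ) (t : Fin m → ℝ) :
    χ z (t + fun i => (n i : ℝ)) = χ z t := by
  let P : AddSubgroup (Fin m → ℝ) :=
    { carrier := {v | ∀ t, χ z (t + v) = χ z t}
      zero_mem' := fun t => by rw [add_zero]
      add_mem' := by
        intro a b ha hb t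
        rw [← add_assoc, hb, ha]
      neg_mem' := by
        intro a ha t
        have := ha (t + -a)
        rw [neg_add_cancel_right] at this
        exact this.symm }
  have h1 : (fun i => (n i : ℝ)) ∈ P := by
    rw [← Finset.univ_sum_single (fun i => (n i : ℝ))]
    apply P.sum_mem
    intro i _
    have : (Pi.single i ((n i : ℤ) : ℝ) : Fin m → ℝ) = (n i) • Pi.single i (1 : ℝ) := by
      ext j
      by_cases hj : j = i
      · subst hj; simp
      · simp [hj]
    rw [this]
    apply P.zsmul_mem
    intro t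
    exact hχ.per z t i
  exact h1 t

theorem exists_min (hMin : MinStmt) {χ : ℂ → (Fin m → ℝ) → ℝ} (hχ : SmP χ) (z : ℂ) :
    ∃ t ∈ Icc (0 : Fin m → ℝ) 1, χ z t = mu χ z := by
  obtain ⟨t, ht⟩ := (hMin m χ hχ).2.2 z
  refine ⟨t + fun i => ((-⌊t i⌋ : ℤ) : ℝ), ?_, ?_⟩
  · constructor
    · intro i
      simp only [Pi.zero_apply, Pi.add_apply, Int.cast_neg]
      have := Int.fract_nonneg (t i)
      unfold Int.fract at this
      linarith
    · intro i
      simp only [Pi.one_apply, Pi.add_apply, Int.cast_neg]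
      have := (Int.fract_lt_one (t i)).le
      unfold Int.fract at this
      linarith
  · rw [period hχ z (fun i => -⌊t i⌋) t, ht]

theorem vol_one : (volume (Icc (0 : Fin m → ℝ) 1)).toReal = 1 := by
  have h : (0 : Fin m → ℝ) ≤ 1 := fun i => zero_le_one
  have h1 := Real.volume_Icc_pi_toReal h
  rw [h1]
  simp

theorem tI_const (c : ℝ) : tI (fun _ : Fin m → ℝ => c) = c := by
  unfold tI
  rw [setIntegral_const, Measure.real, vol_one, smul_eq_mul, one_mul]

theorem intOn {f : (Fin m → ℝ) → ℝ} (hf : Continuous f) :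
    IntegrableOn f (Icc (0 : Fin m → ℝ) 1) :=
  hf.continuousOn.integrableOn_compact isCompact_Icc

theorem tI_mono {f g : (Fin m → ℝ) → ℝ} (hf : Continuous f) (hg : Continuous g)
    (h : ∀ t, f t ≤ g t) : tI f ≤ tI g :=
  setIntegral_mono (intOn hf) (intOn hg) h

theorem tI_pos {f : (Fin m → ℝ) → ℝ} (hf : Continuous f) (h0 : ∀ t, 0 ≤ f t)
    {t0 : Fin m → ℝ} (ht0 : t0 ∈ Icc (0 : Fin m → ℝ) 1) (hp : 0 < f t0) : 0 < tI f := by
  unfold tI
  rw [setIntegral_pos_iff_support_of_nonneg_ae (Filter.Eventually.of_forall h0) (intOn hf)]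
  have hI : (interior (Icc (0 : Fin m → ℝ) 1)).Nonempty := by
    rw [← pi_univ_Icc, interior_pi_set Set.finite_univ]
    refine ⟨fun _ => 1 / 2, ?_⟩
    intro i _
    simp only [Pi.zero_apply, Pi.one_apply, interior_Icc, mem_Ioo]
    constructor <;> norm_num
  have hcl := (convex_Icc (𝕜 := ℝ) (0 : Fin m → ℝ) 1).closure_interior_eq_closure_of_nonempty_interior hI
  have ht1 : t0 ∈ closure (interior (Icc (0 : Fin m → ℝ) 1)) := by
    rw [hcl]
    exact subset_closure ht0
  have hU : IsOpen {t | 0 < f t} := isOpen_lt continuous_const hf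
  obtain ⟨t1, ht1a, ht1b⟩ := mem_closure_iff.1 ht1 _ hU hp
  have hO : IsOpen ({t | 0 < f t} ∩ interior (Icc (0 : Fin m → ℝ) 1)) := hU.inter isOpen_interior
  have := hO.measure_pos volume ⟨t1, ht1a, ht1b⟩
  refine this.trans_le (measure_mono ?_)
  rintro t ⟨h1, h2⟩
  exact ⟨ne_of_gt h1, interior_subset h2⟩

/-- uniform lower bound -/
theorem lower (hMin : MinStmt) {χ : ℂ → (Fin m → ℝ) → ℝ} (hχ : SmP χ) {δ : ℝ} (hδ : 0 < δ) :
    ∃ v > 0, ∀ z : ℂ, ‖z‖ ≤ 1 → ∀ q < 0,
      v * Real.exp (q * δ) ≤ tI (fun t => Real.exp (q * (χ z t - mu χ z))) := by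
  obtain ⟨hmc, hml, _⟩ := hMin m χ hχ
  have hc : Continuous (fun p : ℂ × (Fin m → ℝ) => χ p.1 p.2) := hχ.smooth.continuous
  let F : ℂ → (Fin m → ℝ) → ℝ := fun z t => max 0 (1 - (χ z t - mu χ z) / δ)
  have hF : Continuous (fun p : ℂ × (Fin m → ℝ) => F p.1 p.2) := by
    apply continuous_const.max
    apply continuous_const.sub
    apply Continuous.div_const
    exact hc.sub (hmc.comp continuous_fst)
  have hFz : ∀ z, Continuous (F z) := fun z =>
    hF.comp (continuous_const.prodMk continuous_id)
  have hv : Continuous (fun z => tI (F z)) := by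
    unfold tI
    exact continuous_parametric_integral_of_continuous (f := F) hF isCompact_Icc
  obtain ⟨z0, hz0, hmin⟩ := (isCompact_closedBall (0 : ℂ) 1).exists_isMinOn
    ⟨0, Metric.mem_closedBall_self zero_le_one⟩ hv.continuousOn
  have hF0 : ∀ z t, 0 ≤ F z t := fun z t => le_max_left _ _
  refine ⟨tI (F z0), ?_, ?_⟩
  · obtain ⟨t0, ht0, he⟩ := exists_min hMin hχ z0
    apply tI_pos (hFz z0) (hF0 z0) ht0
    have : F z0 t0 = 1 := by
      show max 0 (1 - (χ z0 t0 - mu χ z0) / δ) = 1
      rw [he, sub_self, zero_div, sub_zero]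
      exact max_eq_right zero_le_one
    rw [this]
    exact zero_lt_one
  · intro z hz q hq
    have h1 : tI (F z0) ≤ tI (F z) := hmin (by rwa [mem_closedBall_zero_iff])
    have hcz : Continuous (fun t => χ z t) := hc.comp (continuous_const.prodMk continuous_id)
    have h2 : tI (fun t => Real.exp (q * δ) * F z t) ≤
        tI (fun t => Real.exp (q * (χ z t - mu χ z))) := by
      apply tI_mono (continuous_const.mul (hFz z))
        (Real.continuous_exp.comp (continuous_const.mul (hcz.sub continuous_const)))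
      intro t
      have h0 : 0 ≤ χ z t - mu χ z := sub_nonneg.2 (hml z t)
      show Real.exp (q * δ) * max 0 (1 - (χ z t - mu χ z) / δ) ≤ _
      by_cases hh : χ z t - mu χ z ≤ δ
      · have h3 : max 0 (1 - (χ z t - mu χ z) / δ) ≤ 1 := by
          apply max_le zero_le_one
          have : 0 ≤ (χ z t - mu χ z) / δ := div_nonneg h0 hδ.le
          linarith
        calc Real.exp (q * δ) * max 0 (1 - (χ z t - mu χ z) / δ) ≤ Real.exp (q * δ) * 1 :=
              mul_le_mul_of_nonneg_left h3 (Real.exp_pos _).le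
          _ ≤ Real.exp (q * (χ z t - mu χ z)) := by
              rw [mul_one]
              exact Real.exp_le_exp.2 (mul_le_mul_of_nonpos_left hh hq.le)
      · have h3 : max 0 (1 - (χ z t - mu χ z) / δ) = 0 := by
          apply max_eq_left
          rw [sub_nonpos, one_le_div hδ]
          exact (not_le.1 hh).le
        rw [h3, mul_zero]
        exact (Real.exp_pos _).le
    have h3 : tI (fun t => Real.exp (q * δ) * F z t) = Real.exp (q * δ) * tI (F z) := by
      unfold tI
      rw [integral_const_mul]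
    rw [h3] at h2
    calc tI (F z0) * Real.exp (q * δ) ≤ tI (F z) * Real.exp (q * δ) :=
          mul_le_mul_of_nonneg_right h1 (Real.exp_pos _).le
      _ = Real.exp (q * δ) * tI (F z) := mul_comm _ _
      _ ≤ _ := h2

theorem lim (hMin : MinStmt) : LimStmt := by
  intro m χ a ε hχ hε
  obtain ⟨hmc, hml, _⟩ := hMin m χ hχ
  have hc : Continuous (fun p : ℂ × (Fin m → ℝ) => χ p.1 p.2) := hχ.smooth.continuous
  set δ : ℝ := ε / (4 * (|a| + 1)) with hδd
  have ha0 : 0 ≤ |a| := abs_nonneg a
  have hδ : 0 < δ := by rw [hδd]; positivity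
  have hδ1 : (|a| + 1) * δ = ε / 4 := by
    rw [hδd]; field_simp
  have haδ : |a| * δ ≤ ε / 4 := by nlinarith
  have hδ4 : δ ≤ ε / 4 := by nlinarith
  obtain ⟨v, hv, hlow⟩ := lower hMin hχ (half_pos hδ)
  set c : ℝ := 1 - Real.exp (-(3 * ε / 4)) with hcd
  have hc0 : 0 < c := by
    rw [hcd, sub_pos, Real.exp_lt_one_iff]
    linarith
  have hc1 : c < 1 := by
    rw [hcd]; have := Real.exp_pos (-(3 * ε / 4)); linarith
  refine ⟨min (-|a| - 1) (2 * Real.log (c * v) / δ), ?_, ?_⟩
  · exact (min_le_left _ _).trans_lt (by linarith)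
  intro q hq z hz
  have hq1 : q ≤ -|a| - 1 := hq.trans (min_le_left _ _)
  have hq2 : q ≤ 2 * Real.log (c * v) / δ := hq.trans (min_le_right _ _)
  have hq0 : q < 0 := by linarith
  have hqa : q + a < 0 := by have := le_abs_self a; linarith
  have hcv : 0 < c * v := mul_pos hc0 hv
  -- K = exp (q δ/2) ≤ c v
  have hK : Real.exp (q * (δ / 2)) ≤ c * v := by
    rw [← Real.le_log_iff_exp_le hcv]
    rw [le_div_iff₀ hδ] at hq2
    linarith
  have hcz : Continuous (fun t => χ z t) := hc.comp (continuous_const.prodMk continuous_id)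
  set μ := mu χ z with hμ
  have hh0 : ∀ t, 0 ≤ χ z t - μ := fun t => sub_nonneg.2 (hml z t)
  have hce : ∀ r : ℝ, Continuous (fun t => Real.exp (r * (χ z t - μ))) := fun r =>
    Real.continuous_exp.comp (continuous_const.mul (hcz.sub continuous_const))
  set B : ℝ := tI (fun t => Real.exp (q * (χ z t - μ))) with hB
  set A : ℝ := tI (fun t => Real.exp ((q + a) * (χ z t - μ))) with hA
  have hBlow : v * Real.exp (q * (δ / 2)) ≤ B := hlow z hz q hq0
  have hBpos : 0 < B := lt_of_lt_of_le (mul_pos hv (Real.exp_pos _)) hBlow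
  have hB1 : B ≤ 1 := by
    have h1 := tI_mono (hce q) (continuous_const (y := (1 : ℝ))) (fun t => by
      rw [Real.exp_le_one_iff]
      exact mul_nonpos_of_nonpos_of_nonneg hq0.le (hh0 t))
    rw [tI_const] at h1
    exact h1
  -- the integrals
  have e1 : tI (fun t => Real.exp (q * χ z t)) = Real.exp (q * μ) * B := by
    rw [hB]
    unfold tI
    rw [← integral_const_mul]
    apply integral_congr_ae
    apply Filter.Eventually.of_forall
    intro t
    simp only
    rw [← Real.exp_add]
    ring_nf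
  have e2 : tI (fun t => Real.exp (q * χ z t) * Real.exp (a * χ z t)) =
      Real.exp ((q + a) * μ) * A := by
    rw [hA]
    unfold tI
    rw [← integral_const_mul]
    apply integral_congr_ae
    apply Filter.Eventually.of_forall
    intro t
    simp only
    rw [← Real.exp_add, ← Real.exp_add]
    ring_nf
  have e3 : mn q χ (fun z t => Real.exp (a * χ z t)) z = Real.exp (a * μ) * (A / B) := by
    unfold mn
    rw [e1, e2]
    have : Real.exp ((q + a) * μ) = Real.exp (q * μ) * Real.exp (a * μ) := by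
      rw [← Real.exp_add]; ring_nf
    rw [this]
    have h1 := (Real.exp_pos (q * μ)).ne'
    field_simp
  have e4 : lm q χ z = μ + Real.log B / q := by
    unfold lm
    rw [e1, Real.log_mul (Real.exp_pos _).ne' hBpos.ne', Real.log_exp]
    have hq' : q ≠ 0 := hq0.ne
    rw [one_div, inv_mul_eq_div, add_div, mul_div_cancel_left₀ _ hq']
  have hexpK : Real.exp (q * (δ / 2)) / v ≤ c := by
    rw [div_le_iff₀ hv]; exact hK
  -- exp(q δ) / B ≤ exp(q δ/2)/v
  have hsq : Real.exp (q * δ) = Real.exp (q * (δ / 2)) * Real.exp (q * (δ / 2)) := by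
    rw [← Real.exp_add]; ring_nf
  have hqB : Real.exp (q * δ) / B ≤ c := by
    rw [div_le_iff₀ hBpos]
    have hpos := Real.exp_pos (q * (δ / 2))
    calc Real.exp (q * δ) = Real.exp (q * (δ / 2)) * Real.exp (q * (δ / 2)) := hsq
      _ ≤ (c * v) * Real.exp (q * (δ / 2)) := mul_le_mul_of_nonneg_right hK hpos.le
      _ = c * (v * Real.exp (q * (δ / 2))) := by ring
      _ ≤ c * B := mul_le_mul_of_nonneg_left hBlow hc0.le
  -- upper bound for A
  have hAup : A ≤ Real.exp (|a| * δ) * B + Real.exp ((q + a) * δ) := by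
    have h1 := tI_mono (hce (q + a)) ((continuous_const.mul (hce q)).add continuous_const)
      (f := fun t => Real.exp ((q + a) * (χ z t - μ)))
      (g := fun t => Real.exp (|a| * δ) * Real.exp (q * (χ z t - μ)) + Real.exp ((q + a) * δ))
      (fun t => by
        by_cases hh : χ z t - μ ≤ δ
        · have h2 : (q + a) * (χ z t - μ) ≤ |a| * δ + q * (χ z t - μ) := by
            have h3 : a * (χ z t - μ) ≤ |a| * δ :=
              mul_le_mul (le_abs_self a) hh (hh0 t) ha0
            linarith
          have h4 := Real.exp_le_exp.2 h2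
          rw [Real.exp_add] at h4
          have := Real.exp_pos ((q + a) * δ)
          linarith
        · have h2 : (q + a) * (χ z t - μ) ≤ (q + a) * δ :=
            mul_le_mul_of_nonpos_left (not_le.1 hh).le hqa.le
          have h4 := Real.exp_le_exp.2 h2
          have := mul_pos (Real.exp_pos (|a| * δ)) (Real.exp_pos (q * (χ z t - μ)))
          linarith)
    have h5 : tI (fun t => Real.exp (|a| * δ) * Real.exp (q * (χ z t - μ)) +
        Real.exp ((q + a) * δ)) = Real.exp (|a| * δ) * B + Real.exp ((q + a) * δ) := by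
      have h6 := tI_const (m := m) (Real.exp ((q + a) * δ))
      rw [hB]
      unfold tI at h6 ⊢
      rw [integral_add ((intOn (hce q)).const_mul _) (intOn continuous_const),
        integral_const_mul, h6]
    rw [h5] at h1
    exact h1
  -- lower bound for A
  have hAlow : Real.exp (-(|a| * δ)) * (B - Real.exp (q * δ)) ≤ A := by
    have h1 := tI_mono (continuous_const.mul ((hce q).sub continuous_const)) (hce (q + a))
      (f := fun t => Real.exp (-(|a| * δ)) * (Real.exp (q * (χ z t - μ)) - Real.exp (q * δ)))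
      (g := fun t => Real.exp ((q + a) * (χ z t - μ)))
      (fun t => by
        by_cases hh : χ z t - μ ≤ δ
        · have h2 : -(|a| * δ) + q * (χ z t - μ) ≤ (q + a) * (χ z t - μ) := by
            have h3 : -a * (χ z t - μ) ≤ |a| * δ :=
              mul_le_mul (neg_le_abs a) hh (hh0 t) ha0
            linarith
          have h4 := Real.exp_le_exp.2 h2
          rw [Real.exp_add] at h4
          have := mul_pos (Real.exp_pos (-(|a| * δ))) (Real.exp_pos (q * δ))
          linarith
        · have h2 : q * (χ z t - μ) ≤ q * δ :=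
            mul_le_mul_of_nonpos_left (not_le.1 hh).le hq0.le
          have h4 := Real.exp_le_exp.2 h2
          have h5 : Real.exp (-(|a| * δ)) * (Real.exp (q * (χ z t - μ)) - Real.exp (q * δ)) ≤ 0 :=
            mul_nonpos_of_nonneg_of_nonpos (Real.exp_pos _).le (by linarith)
          exact h5.trans (Real.exp_pos _).le)
    have h5 : tI (fun t => Real.exp (-(|a| * δ)) *
        (Real.exp (q * (χ z t - μ)) - Real.exp (q * δ))) =
        Real.exp (-(|a| * δ)) * (B - Real.exp (q * δ)) := by
      have h6 := tI_const (m := m) (Real.exp (q * δ))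
      rw [hB]
      unfold tI at h6 ⊢
      rw [integral_const_mul, integral_sub (intOn (hce q)) (intOn continuous_const), h6]
    rw [h5] at h1
    exact h1
  have hlogB : Real.log B ≤ 0 := Real.log_nonpos hBpos.le hB1
  refine ⟨?_, ?_, ?_, ?_⟩
  · rw [e4]
    have : 0 ≤ Real.log B / q := div_nonneg_of_nonpos hlogB hq0.le
    linarith
  · rw [e4]
    have h1 : Real.log (v * Real.exp (q * (δ / 2))) ≤ Real.log B :=
      Real.log_le_log (mul_pos hv (Real.exp_pos _)) hBlow
    rw [Real.log_mul hv.ne' (Real.exp_pos _).ne', Real.log_exp] at h1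
    have h2 : q * (δ / 2) ≤ Real.log v := by
      rw [Real.le_log_iff_exp_le hv]
      refine hK.trans ?_
      nlinarith
    have h3 : q * δ ≤ Real.log B := by linarith
    have h4 : Real.log B / q ≤ δ := by
      rw [div_le_iff_of_neg hq0]
      linarith
    linarith
  · rw [e3]
    have h1 : A / B ≤ Real.exp (ε / 4) * (1 + c) := by
      rw [div_le_iff₀ hBpos]
      have h2 : Real.exp (|a| * δ) ≤ Real.exp (ε / 4) := Real.exp_le_exp.2 haδ
      have h3 : Real.exp ((q + a) * δ) ≤ Real.exp (ε / 4) * Real.exp (q * δ) := by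
        rw [← Real.exp_add]
        apply Real.exp_le_exp.2
        have : a * δ ≤ |a| * δ := mul_le_mul_of_nonneg_right (le_abs_self a) hδ.le
        linarith
      have h4 : Real.exp (q * δ) ≤ c * B := by
        rwa [div_le_iff₀ hBpos] at hqB
      have h5 := Real.exp_pos (ε / 4)
      calc A ≤ Real.exp (|a| * δ) * B + Real.exp ((q + a) * δ) := hAup
        _ ≤ Real.exp (ε / 4) * B + Real.exp (ε / 4) * (c * B) := by
            apply add_le_add (mul_le_mul_of_nonneg_right h2 hBpos.le)
            exact h3.trans (mul_le_mul_of_nonneg_left h4 h5.le)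
        _ = Real.exp (ε / 4) * (1 + c) * B := by ring
    have h2 : 1 + c ≤ Real.exp (3 * ε / 4) := by
      rw [hcd]
      have hx := Real.exp_pos (3 * ε / 4)
      have hy := Real.exp_pos (-(3 * ε / 4))
      have hxy : Real.exp (3 * ε / 4) * Real.exp (-(3 * ε / 4)) = 1 := by
        rw [← Real.exp_add, add_neg_cancel, Real.exp_zero]
      nlinarith [sq_nonneg (Real.exp (3 * ε / 4) - Real.exp (-(3 * ε / 4)))]
    calc Real.exp (a * μ) * (A / B) ≤ Real.exp (a * μ) * (Real.exp (ε / 4) * (1 + c)) :=
          mul_le_mul_of_nonneg_left h1 (Real.exp_pos _).le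
      _ ≤ Real.exp (a * μ) * (Real.exp (ε / 4) * Real.exp (3 * ε / 4)) := by
          apply mul_le_mul_of_nonneg_left _ (Real.exp_pos _).le
          exact mul_le_mul_of_nonneg_left h2 (Real.exp_pos _).le
      _ = Real.exp (a * μ + ε) := by
          rw [← Real.exp_add, ← Real.exp_add]
          ring_nf
  · rw [e3]
    have h1 : Real.exp (-(ε / 4)) * (1 - c) ≤ A / B := by
      rw [le_div_iff₀ hBpos]
      have h2 : Real.exp (-(ε / 4)) ≤ Real.exp (-(|a| * δ)) :=
        Real.exp_le_exp.2 (by linarith)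
      have h4 : Real.exp (q * δ) ≤ c * B := by
        rwa [div_le_iff₀ hBpos] at hqB
      have h6 : 0 ≤ (1 - c) * B := mul_nonneg (by linarith) hBpos.le
      calc Real.exp (-(ε / 4)) * (1 - c) * B = Real.exp (-(ε / 4)) * ((1 - c) * B) := by ring
        _ ≤ Real.exp (-(|a| * δ)) * ((1 - c) * B) := mul_le_mul_of_nonneg_right h2 h6
        _ ≤ Real.exp (-(|a| * δ)) * (B - Real.exp (q * δ)) := by
            apply mul_le_mul_of_nonneg_left _ (Real.exp_pos _).le
            linarith
        _ ≤ A := hAlow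
    have h2 : 1 - c = Real.exp (-(3 * ε / 4)) := by rw [hcd]; ring
    calc Real.exp (a * μ - ε) = Real.exp (a * μ) * (Real.exp (-(ε / 4)) * (1 - c)) := by
          rw [h2, ← Real.exp_add, ← Real.exp_add]
          ring_nf
      _ ≤ Real.exp (a * μ) * (A / B) := mul_le_mul_of_nonneg_left h1 (Real.exp_pos _).le

end Pool.Agent.BCS.H30
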